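import Pool.Agent.Helper65.KG.Goals

/-!
PROJECT KG (MP_20ee5e_ag), packet FE: flux with equality, every face (after Helper32/KN/FX.lean).
-/

set_option autoImplicit false

open MeasureTheory Set

namespace Pool.Agent.Helper83.KG.FE

open Pool.Agent.Helper70.KN
open Pool.Agent.Helper65.KG

variable {N : ℕ}

theorem measurable_zr (J : Finset (Fin N)) : Measurable (zr J : (Fin N → ℝ) → Fin N → ℝ) := by
  refine measurable_pi_lambda _ fun i => ?_
  unfold zr
  by_cases h : i ∈ J
  · simp only [h, if_true]
    exact measurable_const
  · simp only [h, if_false]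
    exact measurable_pi_apply i

theorem t (hSG2 : S_SG2) : S_FE := by
  intro N V L ω hC J k hkj
  have hconv : Convenient V := hC.1
  obtain ⟨r1, r2, r3, r4, r5, r6, r7⟩ := pRH N V L ω hC
  obtain ⟨d1, d2, d3, d4, d5, d6⟩ := pDM N V L ω hC k
  have hmc : MeasurableSet (cyl V J) := (pMF N V hconv J).1
  have hmc2 : MeasurableSet (cyl V (insert k J)) := (pMF N V hconv (insert k J)).1
  have hne : ∀ j ∈ J, j ≠ k := fun j hj h => hkj (h ▸ hj)
  obtain ⟨g, hg⟩ : ∃ g : (Fin N → ℝ) → ENNReal, g = fun x => ENNReal.ofReal (dm L k (zr J x)) :=
    ⟨_, rfl⟩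
  have hgm : Measurable g := by
    rw [hg]
    exact (d4.comp (measurable_zr J)).ennreal_ofReal
  have hkey : ∀ x : Fin N → ℝ, 0 ≤ x k → x k < 1 →
      ∫⁻ t : ℝ, (cyl V J).indicator g (Function.update x k t) =
        (cyl V (insert k J)).indicator
          (fun x => ENNReal.ofReal (1 - rho L (zr (insert k J) x))) x := by
    intro x hx0 hx1
    by_cases hbase : (∀ i, i ≠ k → 0 ≤ x i) ∧ ∀ j ∈ J, x j < 1
    swap
    · have h0 : ∀ t : ℝ, (cyl V J).indicator g (Function.update x k t) = 0 := by
        intro t
        refine indicator_of_notMem (fun h => hbase ⟨fun i hi => ?_, fun j hj => ?_⟩) _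
        · have := h.1 i
          rw [Function.update_of_ne hi] at this
          exact this
        · have := h.2.1 j hj
          rw [Function.update_of_ne (hne j hj)] at this
          exact this
      simp only [h0, lintegral_zero]
      refine (indicator_of_notMem (fun h => hbase ⟨fun i _ => h.1 i, fun j hj => ?_⟩) _).symm
      exact h.2.1 j (Finset.mem_insert_of_mem hj)
    obtain ⟨hb0, hb1⟩ := hbase
    obtain ⟨y, hy⟩ : ∃ y : ℝ → Fin N → ℝ, y = fun t => zr J (Function.update x k t) := ⟨_, rfl⟩
    have hyk : ∀ t, y t k = t := by
      intro t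
      rw [hy]
      simp only [zr, hkj, if_false, Function.update_self]
    have hyi : ∀ t t' i, i ≠ k → y t i = y t' i := by
      intro t t' i hi
      rw [hy]
      simp only [zr]
      rw [Function.update_of_ne hi, Function.update_of_ne hi]
    have hynn : ∀ t, 0 ≤ t → 0 ≤ y t := by
      intro t ht i
      by_cases hi : i = k
      · rw [hi, hyk]
        exact ht
      · rw [hy]
        simp only [zr]
        rw [Function.update_of_ne hi]
        by_cases hij : i ∈ J
        · rw [if_pos hij]
          exact le_refl _
        · rw [if_neg hij]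
          exact hb0 i hi
    have hymono : ∀ t t', t ≤ t' → y t ≤ y t' := by
      intro t t' htt i
      by_cases hi : i = k
      · rw [hi, hyk, hyk]
        exact htt
      · rw [hyi t t' i hi]
    have hycont : Continuous y := by
      refine continuous_pi fun i => ?_
      by_cases hi : i = k
      · rw [hi]
        have : (fun t => y t k) = fun t => t := funext hyk
        rw [this]
        exact continuous_id
      · have : (fun t => y t i) = fun _ => y 0 i := funext fun t => hyi t 0 i hi
        rw [this]
        exact continuous_const
    obtain ⟨φ, hφ⟩ : ∃ φ : ℝ → ℝ, φ = fun t => rho L (y t) := ⟨_, rfl⟩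
    obtain ⟨b, hb⟩ : ∃ b : ℝ → ℝ, b = fun t => dm L k (y t) := ⟨_, rfl⟩
    have hφc : Continuous φ := by
      rw [hφ]
      exact r7.comp hycont
    have hφm : ∀ t t', t ≤ t' → φ t ≤ φ t' := by
      intro t t' htt
      rw [hφ]
      exact r5 _ _ (hymono t t' htt)
    have hsub : ∀ s s', φ s' ≤ φ s + b s * (s' - s) := by
      intro s s'
      obtain ⟨w, hw, hw1, hw2⟩ := d1 (y s)
      have h1 : φ s' ≤ dt w (y s') := by
        rw [hφ]
        exact r2 _ w hw
      have h2 : dt w (y s') = dt w (y s) + w k * (s' - s) := by
        unfold dt
        rw [← Finset.add_sum_erase Finset.univ (fun i => w i * y s' i) (Finset.mem_univ k),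
          ← Finset.add_sum_erase Finset.univ (fun i => w i * y s i) (Finset.mem_univ k)]
        rw [hyk, hyk]
        have h3 : ∑ i ∈ Finset.univ.erase k, w i * y s' i = ∑ i ∈ Finset.univ.erase k, w i * y s i := by
          refine Finset.sum_congr rfl fun i hi => ?_
          rw [hyi s' s i (Finset.ne_of_mem_erase hi)]
        rw [h3]
        ring
      rw [h2, hw1, hw2] at h1
      have e1 : rho L (y s) = φ s := by rw [hφ]
      have e2 : dm L k (y s) = b s := by rw [hb]
      rw [e1, e2] at h1
      exact h1
    have hzr : zr (insert k J) x = y 0 := by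
      funext i
      rw [hy]
      simp only [zr]
      by_cases hi : i = k
      · rw [hi, Function.update_self]
        simp
      · rw [Function.update_of_ne hi]
        by_cases hij : i ∈ J
        · simp [hij]
        · simp [hi, hij]
    by_cases h01 : 1 ≤ φ 0
    · have h0 : ∀ t : ℝ, (cyl V J).indicator g (Function.update x k t) = 0 := by
        intro t
        refine indicator_of_notMem (fun h => ?_) _
        have ht : 0 ≤ t := by
          have := h.1 k
          rw [Function.update_self] at this
          exact this
        refine h.2.2 ?_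
        have e : zr J (Function.update x k t) = y t := by rw [hy]
        rw [e, r3 _ (hynn t ht)]
        refine h01.trans ?_
        have := hφm 0 t ht
        rw [hφ] at this ⊢
        exact this
      simp only [h0, lintegral_zero]
      refine (indicator_of_notMem (fun h => h.2.2 ?_) _).symm
      rw [hzr, r3 _ (hynn 0 le_rfl)]
      rw [hφ] at h01
      exact h01
    · rw [not_le] at h01
      have hxc : x ∈ cyl V (insert k J) := by
        refine ⟨fun i => ?_, fun i hi => ?_, ?_⟩
        · by_cases hik : i = k
          · rw [hik]
            exact hx0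
          · exact hb0 i hik
        · rw [Finset.mem_insert] at hi
          rcases hi with hi | hi
          · rw [hi]
            exact hx1
          · exact hb1 i hi
        · rw [hzr, r3 _ (hynn 0 le_rfl)]
          rw [hφ] at h01
          exact not_le.2 h01
      rw [indicator_of_mem hxc, hzr]
      -- the end of the interval
      obtain ⟨M, hM0, hM⟩ := pBD N V hconv
      have hφM : 1 ≤ φ M := by
        have h1 : y M ∈ newton V := by
          by_contra h
          have := hM (y M) (hynn M hM0.le) h k
          rw [hyk] at this
          exact lt_irrefl _ this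
        rw [r3 _ (hynn M hM0.le)] at h1
        rw [hφ]
        exact h1
      obtain ⟨S0, hS0, hφS0⟩ : ∃ S ∈ Icc (0 : ℝ) M, φ S = 1 := by
        have := intermediate_value_Icc hM0.le hφc.continuousOn
        exact this ⟨h01.le, hφM⟩
      obtain ⟨E, hE⟩ : ∃ E : Set ℝ, E = {t | 0 ≤ t ∧ 1 ≤ φ t} := ⟨_, rfl⟩
      have hEc : IsClosed E := by
        rw [hE]
        exact (isClosed_le continuous_const continuous_id).inter
          (isClosed_le continuous_const hφc)
      have hEn : E.Nonempty := ⟨S0, by
        rw [hE]
        exact ⟨hS0.1, hφS0.ge⟩⟩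
      have hEb : BddBelow E := ⟨0, fun t ht => by
        rw [hE] at ht
        exact ht.1⟩
      obtain ⟨S, hSd⟩ : ∃ S : ℝ, S = sInf E := ⟨_, rfl⟩
      have hSE : S ∈ E := hSd ▸ hEc.csInf_mem hEn hEb
      have hSE' : 0 ≤ S ∧ 1 ≤ φ S := by
        rw [hE] at hSE
        exact hSE
      have hSle : ∀ t, 0 ≤ t → 1 ≤ φ t → S ≤ t := by
        intro t h1 h2
        rw [hSd]
        refine csInf_le hEb ?_
        rw [hE]
        exact ⟨h1, h2⟩
      have hφS : φ S = 1 := by
        refine le_antisymm ?_ hSE'.2
        have := hφm S S0 (hSle S0 hS0.1 hφS0.ge)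
        rwa [hφS0] at this
      obtain ⟨hint, -⟩ := pSG φ b S hSE'.1 (fun s _ s' _ => hsub s s')
      have heq := hSG2 φ b S hSE'.1 (fun s _ s' _ => hsub s s')
      have hpt : ∀ t : ℝ, (cyl V J).indicator g (Function.update x k t) =
          (Ico 0 S).indicator (fun t => ENNReal.ofReal (b t)) t := by
        intro t
        have e : zr J (Function.update x k t) = y t := by rw [hy]
        by_cases h : t ∈ Ico 0 S
        · have hφt : φ t < 1 := by
            by_contra hlt
            rw [not_lt] at hlt
            exact absurd (hSle t h.1 hlt) (not_le.2 h.2)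
          have hmem : Function.update x k t ∈ cyl V J := by
            refine ⟨fun i => ?_, fun i hi => ?_, ?_⟩
            · by_cases hik : i = k
              · rw [hik, Function.update_self]
                exact h.1
              · rw [Function.update_of_ne hik]
                exact hb0 i hik
            · rw [Function.update_of_ne (hne i hi)]
              exact hb1 i hi
            · rw [e, r3 _ (hynn t h.1), not_le]
              rw [hφ] at hφt
              exact hφt
          rw [indicator_of_mem hmem, indicator_of_mem h, hg, hb, hy]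
        · rw [indicator_of_notMem h]
          refine indicator_of_notMem (fun h' => h ?_) _
          have ht : 0 ≤ t := by
            have := h'.1 k
            rw [Function.update_self] at this
            exact this
          refine ⟨ht, ?_⟩
          have h1 := h'.2.2
          rw [e, r3 _ (hynn t ht), not_le] at h1
          by_contra hlt
          rw [not_lt] at hlt
          have := hφm S t hlt
          rw [hφS] at this
          rw [hφ] at this
          exact absurd this (not_le.2 h1)
      have hbn : ∀ t, 0 ≤ b t := by
        intro t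
        rw [hb]
        exact (d3 _).1
      have hI : IntegrableOn b (Ioc 0 S) volume := by
        rw [← intervalIntegrable_iff_integrableOn_Ioc_of_le hSE'.1]
        exact hint
      calc ∫⁻ t : ℝ, (cyl V J).indicator g (Function.update x k t)
          = ∫⁻ t : ℝ, (Ico 0 S).indicator (fun t => ENNReal.ofReal (b t)) t :=
            lintegral_congr hpt
        _ = ∫⁻ t in Ico 0 S, ENNReal.ofReal (b t) := lintegral_indicator measurableSet_Ico _
        _ = ∫⁻ t in Ioc 0 S, ENNReal.ofReal (b t) := by
            rw [Measure.restrict_congr_set (Ico_ae_eq_Ioc (a := (0 : ℝ)) (b := S) (μ := volume))]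
        _ = ENNReal.ofReal (∫ t in Ioc 0 S, b t) := by
            rw [ofReal_integral_eq_lintegral_ofReal hI (Filter.Eventually.of_forall hbn)]
        _ = ENNReal.ofReal (1 - rho L (y 0)) := by
            rw [← intervalIntegral.integral_of_le hSE'.1, heq, hφS, hφ]
  -- the conclusion
  have hcard : (insert k J).card = J.card + 1 := Finset.card_insert_of_notMem hkj
  have hlc := pLC N V L ω hC (insert k J)
  rw [hcard] at hlc
  have hN : ((N : ℝ) - (J.card + 1 : ℕ) + 1) = (N : ℝ) - J.card := by
    push_cast
    ring
  rw [hN] at hlc
  rw [← hlc]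
  obtain ⟨A, hAd⟩ : ∃ A : Set (Fin N → ℝ), A = {x : Fin N → ℝ | 0 ≤ x k ∧ x k < 1} := ⟨_, rfl⟩
  have hA : MeasurableSet A := by
    rw [hAd]
    exact (measurableSet_le measurable_const (measurable_pi_apply k)).inter
      (measurableSet_lt (measurable_pi_apply k) measurable_const)
  have hsubA : cyl V (insert k J) ⊆ A := by
    intro x hx
    rw [hAd]
    exact ⟨hx.1 k, hx.2.1 k (Finset.mem_insert_self k J)⟩
  calc ∫⁻ x in cyl V J, ENNReal.ofReal (dm L k (zr J x))
      = ∫⁻ x, (cyl V J).indicator g x := by
        rw [lintegral_indicator hmc, hg]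
    _ = ∫⁻ x in A, ∫⁻ t : ℝ, (cyl V J).indicator g (Function.update x k t) := by
        rw [hAd]
        exact pFBF N _ k (hgm.indicator hmc)
    _ = ∫⁻ x in A, (cyl V (insert k J)).indicator
          (fun x => ENNReal.ofReal (1 - rho L (zr (insert k J) x))) x := by
        refine setLIntegral_congr_fun hA fun x hx => ?_
        rw [hAd] at hx
        exact hkey x hx.1 hx.2
    _ = ∫⁻ x in cyl V (insert k J), ENNReal.ofReal (1 - rho L (zr (insert k J) x)) := by
        rw [lintegral_indicator hmc2, Measure.restrict_restrict hmc2,
          inter_eq_left.2 hsubA]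

end Pool.Agent.Helper83.KG.FE
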